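import Pool.Agent.H85.KP.Iface

/-!
# Final real inequalities of the lower bound (modules M6, M6b of MP_6cc408_an)
-/

namespace Pool.Agent.H72.KP

open Pool.Agent.H85.KP Real

/-- The level 3 form. -/
noncomputable def F3 (b k : ℝ) : ℝ := b ^ 2 + k * (1 + 3 * b ^ 2 + 5 * b ^ 4 / (1 + 5 / 3 * k))

theorem F3_mono {b b0 k k0 : ℝ} (hb0 : 0 ≤ b0) (hb : b0 ≤ b) (hk0 : 0 ≤ k0) (hk : k0 ≤ k) :
    F3 b0 k0 ≤ F3 b k := by
  have hk' : 0 ≤ k := hk0.trans hk
  have hb' : 0 ≤ b := hb0.trans hb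
  have h2 : b0 ^ 2 ≤ b ^ 2 := pow_le_pow_left₀ hb0 hb 2
  have h4 : b0 ^ 4 ≤ b ^ 4 := pow_le_pow_left₀ hb0 hb 4
  have hkk : k0 / (1 + 5 / 3 * k0) ≤ k / (1 + 5 / 3 * k) := by
    rw [div_le_div_iff₀ (by positivity) (by positivity)]
    nlinarith
  have e1 : F3 b0 k0 = b0 ^ 2 + k0 + 3 * (k0 * b0 ^ 2) + 5 * (k0 / (1 + 5 / 3 * k0) * b0 ^ 4) := by
    unfold F3; ring
  have e2 : F3 b k = b ^ 2 + k + 3 * (k * b ^ 2) + 5 * (k / (1 + 5 / 3 * k) * b ^ 4) := by
    unfold F3; ring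
  have h5 : k0 * b0 ^ 2 ≤ k * b ^ 2 := mul_le_mul hk h2 (by positivity) hk'
  have h6 : k0 / (1 + 5 / 3 * k0) * b0 ^ 4 ≤ k / (1 + 5 / 3 * k) * b ^ 4 :=
    mul_le_mul hkk h4 (by positivity) (by positivity)
  rw [e1, e2]
  linarith

/-- Consequences of level 3 after replacing `q` by `T ≤ q` and `a` by `L ≥ a`. -/
theorem reduce {q β a T L : ℝ} (hT : 0 < T) (hq : T ≤ q) (hβ0 : 0 ≤ β) (hβ : β ≤ π / 2)
    (ha : a ≤ L) (h : Lev3 q β a) :
    0 ≤ T * (1 - cos β) ∧ T * (1 - cos β) ≤ T ∧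
      T * (1 - cos β) * (2 * T - T * (1 - cos β)) ≤ 4 ∧
      (0 ≤ (T - L - T * (1 - cos β)) / 2 →
        F3 ((T - L - T * (1 - cos β)) / 2)
          (T * (1 - cos β) * (2 * T - T * (1 - cos β)) / 4) ≤ 1) := by
  have hc0 : 0 ≤ cos β := cos_nonneg_of_neg_pi_div_two_le_of_le (by linarith [pi_pos]) hβ
  have hc1 : cos β ≤ 1 := cos_le_one β
  have hs0 : 0 ≤ sin β := sin_nonneg_of_nonneg_of_le_pi hβ0 (by linarith [pi_pos])
  have hsq : sin β ^ 2 + cos β ^ 2 = 1 := sin_sq_add_cos_sq β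
  have hq0 : 0 < q := lt_of_lt_of_le hT hq
  set b := (q * cos β - a) / 2 with hb
  set k := (q * sin β) ^ 2 / 4 with hk
  have hF : F3 b k ≤ 1 := h
  have hk0 : 0 ≤ k := by positivity
  have hTs : (T * sin β) ^ 2 ≤ (q * sin β) ^ 2 :=
    pow_le_pow_left₀ (by positivity) (mul_le_mul_of_nonneg_right hq hs0) 2
  have hTs2 : T * (1 - cos β) * (2 * T - T * (1 - cos β)) = (T * sin β) ^ 2 := by
    have : sin β ^ 2 = 1 - cos β ^ 2 := by linarith
    rw [mul_pow, this]; ring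
  have hk1 : k ≤ 1 := by
    have e2 : F3 b k = b ^ 2 + k + 3 * (k * b ^ 2) + 5 * (k / (1 + 5 / 3 * k) * b ^ 4) := by
      unfold F3; ring
    have h1 : 0 ≤ b ^ 2 := by positivity
    have h2 : 0 ≤ k * b ^ 2 := by positivity
    have h3 : 0 ≤ k / (1 + 5 / 3 * k) * b ^ 4 := by positivity
    linarith
  refine ⟨by nlinarith, by nlinarith, ?_, ?_⟩
  · rw [hTs2]
    have : (q * sin β) ^ 2 = 4 * k := by rw [hk]; ring
    linarith
  · intro hb0
    refine le_trans (F3_mono hb0 ?_ ?_ ?_) hF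
    · rw [hb]
      have : T * cos β ≤ q * cos β := mul_le_mul_of_nonneg_right hq hc0
      linarith
    · rw [hTs2]; positivity
    · rw [hTs2, hk]; linarith

/-- One regime. -/
theorem step {b k D x B K κ S : ℝ} (hB : 0 ≤ B) (hb : B ≤ b) (hbx : b = 1 - (D + x) / 2)
    (hk : κ * x ≤ k) (hk0 : 0 ≤ k) (hK : k ≤ K) (hS : 0 ≤ S)
    (hSS : S ≤ 1 + 3 * B ^ 2 + 5 * B ^ 4 / (1 + 5 / 3 * K)) (h : F3 b k ≤ 1) :
    κ * S * x ≤ D + x := by
  have h2 : B ^ 2 ≤ b ^ 2 := pow_le_pow_left₀ hB hb 2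
  have h4 : B ^ 4 ≤ b ^ 4 := pow_le_pow_left₀ hB hb 4
  have hK0 : 0 ≤ K := hk0.trans hK
  have h5 : B ^ 4 / (1 + 5 / 3 * K) ≤ b ^ 4 / (1 + 5 / 3 * k) := by
    apply div_le_div₀ (by positivity) h4 (by positivity)
    linarith
  have h6 : S ≤ 1 + 3 * b ^ 2 + 5 * b ^ 4 / (1 + 5 / 3 * k) := by
    have e1 : 5 * B ^ 4 / (1 + 5 / 3 * K) = 5 * (B ^ 4 / (1 + 5 / 3 * K)) := by ring
    have e2 : 5 * b ^ 4 / (1 + 5 / 3 * k) = 5 * (b ^ 4 / (1 + 5 / 3 * k)) := by ring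
    rw [e1] at hSS
    rw [e2]
    linarith
  have h7 : k * S ≤ k * (1 + 3 * b ^ 2 + 5 * b ^ 4 / (1 + 5 / 3 * k)) :=
    mul_le_mul_of_nonneg_left h6 hk0
  have h8 : κ * x * S ≤ k * S := mul_le_mul_of_nonneg_right hk hS
  have h9 : 1 - (D + x) ≤ b ^ 2 := by rw [hbx]; nlinarith [sq_nonneg (D + x)]
  unfold F3 at h
  nlinarith

/-- Polynomial core, general case. -/
theorem core {T D x : ℝ} (hT : 3.41 ≤ T) (hT4 : T ≤ 4) (hD0 : 0 ≤ D) (hD : D ≤ 0.13) (hx0 : 0 ≤ x)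
    (hxT : x ≤ T) (hx4 : x * (2 * T - x) ≤ 4)
    (h : 0 ≤ 1 - (D + x) / 2 → F3 (1 - (D + x) / 2) (x * (2 * T - x) / 4) ≤ 1) :
    x ≤ 0.1066 * D := by
  have hx65 : x ≤ 0.65 := by
    by_contra hlt
    push Not at hlt
    nlinarith [mul_nonneg (sub_nonneg.2 hlt.le) (by linarith : (0:ℝ) ≤ 2 * T - x - 0.65)]
  have hF := h (by linarith)
  have hk0 : 0 ≤ x * (2 * T - x) / 4 := by
    have : 0 ≤ 2 * T - x := by linarith
    positivity
  rcases le_or_gt x 0.02 with h1 | h1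
  · have := step (B := 0.925) (K := 0.04) (κ := 1.7) (S := 6.99) (by norm_num) (by linarith) rfl
      (by nlinarith) hk0 (by nlinarith) (by norm_num) (by norm_num) hF
    linarith
  rcases le_or_gt x 0.06 with h2 | h2
  · have := step (B := 0.905) (K := 0.12) (κ := 1.69) (S := 6.24) (by norm_num) (by linarith) rfl
      (by nlinarith) hk0 (by nlinarith) (by norm_num) (by norm_num) hF
    linarith
  rcases le_or_gt x 0.2 with h3 | h3
  · have := step (B := 0.835) (K := 0.4) (κ := 1.655) (S := 3.09) (by norm_num) (by linarith) rfl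
      (by nlinarith) hk0 (by nlinarith) (by norm_num) (by norm_num) hF
    linarith
  · have := step (B := 0.61) (K := 1.3) (κ := 1.54) (S := 2.11) (by norm_num) (by linarith) rfl
      (by nlinarith) hk0 (by nlinarith) (by norm_num) (by norm_num) hF
    linarith

/-- Polynomial core, `n = 9`. -/
theorem core9 {T D x : ℝ} (hT : 3.532 ≤ T) (hT4 : T ≤ 4) (hD0 : 0 ≤ D) (hD : D ≤ 0.08605)
    (hx0 : 0 ≤ x) (hxT : x ≤ T) (hx4 : x * (2 * T - x) ≤ 4)
    (h : 0 ≤ 1 - (D + x) / 2 → F3 (1 - (D + x) / 2) (x * (2 * T - x) / 4) ≤ 1) :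
    x ≤ 0.0072 := by
  have h0 := core (by linarith) hT4 hD0 (by linarith) hx0 hxT hx4 h
  have hF := h (by linarith)
  have hk0 : 0 ≤ x * (2 * T - x) / 4 := by
    have : 0 ≤ 2 * T - x := by linarith
    positivity
  have h1 : x ≤ 0.02 := by linarith
  have := step (B := 0.9469) (K := 0.04) (κ := 1.761) (S := 7.45) (by norm_num) (by linarith) rfl
      (by nlinarith) hk0 (by nlinarith) (by norm_num) (by norm_num) hF
  linarith

/-- Polynomial core, `n = 6`. -/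
theorem core4 {D x : ℝ} (hD : D ≤ 0.262) (hx0 : 0 ≤ x)
    (hxT : x ≤ 3) (hx4 : x * (2 * 3 - x) ≤ 4)
    (h : 0 ≤ 1 - (D + x) / 2 → F3 (1 - (D + x) / 2) (x * (2 * 3 - x) / 4) ≤ 1) :
    x ≤ 0.05 := by
  have hx77 : x ≤ 0.77 := by
    by_contra hlt
    push Not at hlt
    nlinarith [mul_nonneg (sub_nonneg.2 hlt.le) (by linarith : (0:ℝ) ≤ 2 * 3 - x - 0.77)]
  have hF := h (by linarith)
  have hk0 : 0 ≤ x * (2 * 3 - x) / 4 := by
    have : 0 ≤ 2 * 3 - x := by linarith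
    positivity
  rcases le_or_gt x 0.15 with h1 | h1
  · have := step (B := 0.794) (K := 0.225) (κ := 1.46) (S := 4.33) (by norm_num) (by linarith) rfl
      (by nlinarith) hk0 (by nlinarith) (by norm_num) (by norm_num) hF
    linarith
  rcases le_or_gt x 0.4 with h2 | h2
  · have := step (B := 0.669) (K := 0.6) (κ := 1.4) (S := 2.84) (by norm_num) (by linarith) rfl
      (by nlinarith) hk0 (by nlinarith) (by norm_num) (by norm_num) hF
    linarith
  · have := step (B := 0.484) (K := 1.2) (κ := 1.3) (S := 1.7) (by norm_num) (by linarith) rfl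
      (by nlinarith) hk0 (by nlinarith) (by norm_num) (by norm_num) hF
    linarith

/-- Polynomial core, `n = 7`: first localisation. -/
theorem core5 {T D x : ℝ} (hT : T = 3.24697) (hD : D ≤ 0.16118) (hx0 : 0 ≤ x)
    (hxT : x ≤ T) (hx4 : x * (2 * T - x) ≤ 4)
    (h : 0 ≤ 1 - (D + x) / 2 → F3 (1 - (D + x) / 2) (x * (2 * T - x) / 4) ≤ 1) :
    x ≤ 0.02 := by
  subst hT
  have hx77 : x ≤ 0.7 := by
    by_contra hlt
    push Not at hlt
    nlinarith [mul_nonneg (sub_nonneg.2 hlt.le) (by linarith : (0:ℝ) ≤ 2 * 3.24697 - x - 0.7)]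
  have hF := h (by linarith)
  have hk0 : 0 ≤ x * (2 * 3.24697 - x) / 4 := by
    have : 0 ≤ 2 * 3.24697 - x := by linarith
    positivity
  by_contra h0
  push Not at h0
  rcases le_or_gt x 0.06 with h1 | h1
  · have := step (B := 0.8894) (K := 0.0975) (κ := 1.608) (S := 6.06) (by norm_num) (by linarith)
      rfl (by nlinarith) hk0 (by nlinarith) (by norm_num) (by norm_num) hF
    linarith
  rcases le_or_gt x 0.2 with h2 | h2
  · have := step (B := 0.8194) (K := 0.4) (κ := 1.57) (S := 3.01) (by norm_num) (by linarith) rfl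
      (by nlinarith) hk0 (by nlinarith) (by norm_num) (by norm_num) hF
    linarith
  · have := step (B := 0.5694) (K := 1.2) (κ := 1.44) (S := 1.97) (by norm_num) (by linarith) rfl
      (by nlinarith) hk0 (by nlinarith) (by norm_num) (by norm_num) hF
    linarith

theorem pi_sq_le : π ^ 2 ≤ 9.87 := by
  have h1 := pi_lt_d4
  have h0 := pi_pos
  nlinarith

/-- `D₀ ≤ 4π²(1/m² - 1/(m+1)²)` and `D₀ ≥ 0`. -/
theorem D0_bounds {m : ℝ} (hm : 8 ≤ m) :
    0 ≤ 2 * cos (2 * π / (m + 1)) - 2 * cos (2 * π / m) ∧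
      2 * cos (2 * π / (m + 1)) - 2 * cos (2 * π / m) ≤ 4 * π ^ 2 * ((2 * m + 1) / (m ^ 2 * (m + 1) ^ 2)) := by
  have hpi := pi_pos
  have hm0 : 0 < m := by linarith
  have e : 2 * cos (2 * π / (m + 1)) - 2 * cos (2 * π / m)
      = 4 * (sin (π / m + π / (m + 1)) * sin (π / m - π / (m + 1))) := by
    rw [← mul_sub, cos_sub_cos]
    have h1 : (2 * π / (m + 1) + 2 * π / m) / 2 = π / m + π / (m + 1) := by ring
    have h2 : (2 * π / (m + 1) - 2 * π / m) / 2 = -(π / m - π / (m + 1)) := by ring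
    rw [h1, h2, sin_neg]
    ring
  have hA0 : 0 ≤ π / m + π / (m + 1) := by positivity
  have hAle : π / m + π / (m + 1) ≤ π := by
    have h1 : π / m ≤ π / 8 := div_le_div_of_nonneg_left hpi.le (by norm_num) hm
    have h2 : π / (m + 1) ≤ π / 8 := div_le_div_of_nonneg_left hpi.le (by norm_num) (by linarith)
    linarith
  have hB : π / m - π / (m + 1) = π / (m * (m + 1)) := by
    field_simp
    ring
  have hB0 : 0 ≤ π / m - π / (m + 1) := by rw [hB]; positivity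
  have hBle : π / m - π / (m + 1) ≤ π := by
    have : 0 ≤ π / (m + 1) := by positivity
    linarith
  have hsA0 : 0 ≤ sin (π / m + π / (m + 1)) := sin_nonneg_of_nonneg_of_le_pi hA0 hAle
  have hsB0 : 0 ≤ sin (π / m - π / (m + 1)) := sin_nonneg_of_nonneg_of_le_pi hB0 hBle
  have hsA : sin (π / m + π / (m + 1)) ≤ π / m + π / (m + 1) := sin_le hA0
  have hsB : sin (π / m - π / (m + 1)) ≤ π / m - π / (m + 1) := sin_le hB0
  refine ⟨by rw [e]; positivity, ?_⟩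
  rw [e]
  have h3 : sin (π / m + π / (m + 1)) * sin (π / m - π / (m + 1))
      ≤ (π / m + π / (m + 1)) * (π / m - π / (m + 1)) := mul_le_mul hsA hsB hsB0 hA0
  have h4 : (π / m + π / (m + 1)) * (π / m - π / (m + 1))
      = π ^ 2 * ((2 * m + 1) / (m ^ 2 * (m + 1) ^ 2)) := by
    field_simp
    ring
  rw [h4] at h3
  linarith

/-- `2 - 2 cos v ≥ v² (1 - v²/8)`. -/
theorem two_sub {v : ℝ} (h0 : 0 < v) (h1 : v ≤ 2) : v ^ 2 * (1 - v ^ 2 / 8) ≤ 2 - 2 * cos v := by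
  have h2 : cos v = 1 - 2 * sin (v / 2) ^ 2 := by
    have := cos_two_mul (v / 2)
    rw [mul_div_cancel₀ v two_ne_zero] at this
    rw [this, cos_sq']
    ring
  have h3' := sin_gt_sub_cube (x := v / 2) (by linarith)
  have h3 : v / 2 - (v / 2) ^ 3 / 4 < sin (v / 2) := by
    have : 0 ≤ (v / 2) ^ 3 := by positivity
    linarith
  have h4 : 0 ≤ v / 2 - (v / 2) ^ 3 / 4 := by
    have : v / 2 - (v / 2) ^ 3 / 4 = v / 2 * (1 - v ^ 2 / 16) := by ring
    rw [this]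
    apply mul_nonneg (by linarith)
    nlinarith
  have h5 : (v / 2 - (v / 2) ^ 3 / 4) ^ 2 ≤ sin (v / 2) ^ 2 := pow_le_pow_left₀ h4 h3.le 2
  have h6 : (v / 2 - (v / 2) ^ 3 / 4) ^ 2 = v ^ 2 / 4 * (1 - v ^ 2 / 8) + v ^ 2 / 4 * (v ^ 2 / 16) ^ 2 := by
    ring
  have h7 : 0 ≤ v ^ 2 / 4 * (v ^ 2 / 16) ^ 2 := by positivity
  rw [h2]
  linarith

theorem trig_even {m : ℝ} (hm : 8 ≤ m) :
    1.16 * (2 * cos (2 * π / (m + 1)) - 2 * cos (2 * π / m)) ≤ 2 - 2 * cos (π / m) := by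
  have hpi := pi_pos
  have hm0 : 0 < m := by linarith
  have h1 := (D0_bounds hm).2
  have hv : π / m ≤ 2 := by
    rw [div_le_iff₀ hm0]
    have := pi_lt_d4
    linarith
  have h2 := two_sub (v := π / m) (by positivity) hv
  have h3 : 1.16 * (4 * π ^ 2 * ((2 * m + 1) / (m ^ 2 * (m + 1) ^ 2)))
      ≤ (π / m) ^ 2 * (1 - (π / m) ^ 2 / 8) := by
    have e : (π / m) ^ 2 * (1 - (π / m) ^ 2 / 8)
        - 1.16 * (4 * π ^ 2 * ((2 * m + 1) / (m ^ 2 * (m + 1) ^ 2)))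
        = π ^ 2 / (m ^ 4 * (m + 1) ^ 2) *
          (m ^ 2 * (m + 1) ^ 2 - π ^ 2 / 8 * (m + 1) ^ 2 - 4.64 * m ^ 2 * (2 * m + 1)) := by
      field_simp
      ring
    have h4 : 0 ≤ m ^ 2 * (m + 1) ^ 2 - π ^ 2 / 8 * (m + 1) ^ 2 - 4.64 * m ^ 2 * (2 * m + 1) := by
      obtain ⟨t, rfl⟩ : ∃ t, m = 8 + t := ⟨m - 8, by ring⟩
      have ht : 0 ≤ t := by linarith
      have hp := pi_sq_le
      have h5 : π ^ 2 / 8 * (8 + t + 1) ^ 2 ≤ 9.87 / 8 * (8 + t + 1) ^ 2 := by gcongr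
      nlinarith [pow_nonneg ht 2, pow_nonneg ht 3, pow_nonneg ht 4]
    have h5 : 0 ≤ π ^ 2 / (m ^ 4 * (m + 1) ^ 2) := by positivity
    have := mul_nonneg h5 h4
    linarith
  linarith

theorem trig_odd {m : ℝ} (hm : 11 ≤ m) :
    1.16 * (2 * cos (2 * π / (m + 1)) - 2 * cos (2 * π / m)) ≤ 2 - 2 * cos (π / (m + 1)) := by
  have hpi := pi_pos
  have hm0 : 0 < m := by linarith
  have h1 := (D0_bounds (by linarith : 8 ≤ m)).2
  have hv : π / (m + 1) ≤ 2 := by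
    rw [div_le_iff₀ (by linarith)]
    have := pi_lt_d4
    linarith
  have h2 := two_sub (v := π / (m + 1)) (by positivity) hv
  have h3 : 1.16 * (4 * π ^ 2 * ((2 * m + 1) / (m ^ 2 * (m + 1) ^ 2)))
      ≤ (π / (m + 1)) ^ 2 * (1 - (π / (m + 1)) ^ 2 / 8) := by
    have e : (π / (m + 1)) ^ 2 * (1 - (π / (m + 1)) ^ 2 / 8)
        - 1.16 * (4 * π ^ 2 * ((2 * m + 1) / (m ^ 2 * (m + 1) ^ 2)))
        = π ^ 2 / (m ^ 2 * (m + 1) ^ 4) *
          (m ^ 2 * (m + 1) ^ 2 - π ^ 2 / 8 * m ^ 2 - 4.64 * (m + 1) ^ 2 * (2 * m + 1)) := by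
      field_simp
      ring
    have h4 : 0 ≤ m ^ 2 * (m + 1) ^ 2 - π ^ 2 / 8 * m ^ 2 - 4.64 * (m + 1) ^ 2 * (2 * m + 1) := by
      obtain ⟨t, rfl⟩ : ∃ t, m = 11 + t := ⟨m - 11, by ring⟩
      have ht : 0 ≤ t := by linarith
      have hp := pi_sq_le
      have h5 : π ^ 2 / 8 * (11 + t) ^ 2 ≤ 9.87 / 8 * (11 + t) ^ 2 := by gcongr
      nlinarith [pow_nonneg ht 2, pow_nonneg ht 3, pow_nonneg ht 4]
    have h5 : 0 ≤ π ^ 2 / (m ^ 2 * (m + 1) ^ 4) := by positivity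
    have := mul_nonneg h5 h4
    linarith
  linarith

theorem T_lower {m : ℝ} (hm : 8 ≤ m) : 3.41 ≤ 2 + 2 * cos (2 * π / m) := by
  have hpi := pi_pos
  have h1 : cos (π / 4) ≤ cos (2 * π / m) := by
    apply cos_le_cos_of_nonneg_of_le_pi (by positivity) (by linarith)
    rw [div_le_div_iff₀ (by linarith) (by norm_num)]
    nlinarith
  rw [cos_pi_div_four] at h1
  have h2 : (1.41 : ℝ) ≤ √2 := by
    apply Real.le_sqrt_of_sq_le
    norm_num
  linarith

theorem D0_le {m : ℝ} (hm : 8 ≤ m) :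
    2 * cos (2 * π / (m + 1)) - 2 * cos (2 * π / m) ≤ 0.13 := by
  refine (D0_bounds hm).2.trans ?_
  have hp := pi_sq_le
  have h1 : (2 * m + 1) / (m ^ 2 * (m + 1) ^ 2) ≤ 17 / 5184 := by
    have hm0 : 0 < m := by linarith
    rw [div_le_div_iff₀ (by positivity) (by norm_num)]
    obtain ⟨t, rfl⟩ : ∃ t, m = 8 + t := ⟨m - 8, by ring⟩
    have ht : 0 ≤ t := by linarith
    nlinarith [pow_nonneg ht 2, pow_nonneg ht 3, pow_nonneg ht 4]
  calc 4 * π ^ 2 * ((2 * m + 1) / (m ^ 2 * (m + 1) ^ 2)) ≤ 4 * 9.87 * (17 / 5184) := by gcongr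
    _ ≤ 0.13 := by norm_num

theorem final_step {q β a ε T L x : ℝ} (hx : x = T * (1 - cos β)) (hT : 3 ≤ T) (hq : T ≤ q)
    (ha : a ≤ L) (hx1 : x ≤ 1) (hA : q * (3 * cos β - 1) / 2 ≤ a + 2 * cos ε) :
    2 - (2 + L - T) - 1.5 * x ≤ 2 * cos ε := by
  have h1 : 0 ≤ 3 * cos β - 1 := by
    by_contra h
    push Not at h
    nlinarith
  have h2 : T * (3 * cos β - 1) ≤ q * (3 * cos β - 1) := mul_le_mul_of_nonneg_right hq h1
  rw [hx]
  linarith

theorem cos_two_pi_div_nine : 0.766 ≤ cos (2 * π / 9) := by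
  have hpi := pi_pos
  have h3 : cos (3 * (2 * π / 9)) = 4 * cos (2 * π / 9) ^ 3 - 3 * cos (2 * π / 9) := cos_three_mul _
  have h4 : 3 * (2 * π / 9) = π - π / 3 := by ring
  rw [h4, cos_pi_sub, cos_pi_div_three] at h3
  have h1 : 0.7 ≤ cos (2 * π / 9) := by
    have := T_lower (m := 9) (by norm_num)
    linarith
  by_contra hlt
  push Not at hlt
  nlinarith [mul_nonneg (sub_nonneg.2 h1) (sub_nonneg.2 hlt.le)]

theorem fin9 (q β a ε : ℝ) (hq : 2 + 2 * cos (2 * π / 9) ≤ q) (hβ0 : 0 ≤ β) (hβ : β ≤ π / 2)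
    (ha : a ≤ 2 * cos (2 * π / 10)) (hL : Lev3 q β a)
    (hA : q * (3 * cos β - 1) / 2 ≤ a + 2 * cos ε) : cos (π / 10) ≤ cos ε := by
  have h9 := cos_two_pi_div_nine
  have h9' := cos_le_one (2 * π / 9)
  have h5 : cos (2 * π / 10) ≤ 0.80902 := by
    have e : 2 * π / 10 = π / 5 := by ring
    rw [e, cos_pi_div_five]
    have : √5 ≤ 2.23607 := by
      rw [Real.sqrt_le_left (by norm_num)]
      norm_num
    linarith
  have h10 : cos (π / 10) ≤ 0.95107 := by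
    have h1 := cos_two_mul (π / 10)
    have e : 2 * (π / 10) = 2 * π / 10 := by ring
    rw [e] at h1
    by_contra hlt
    push Not at hlt
    nlinarith
  have hD0 := (D0_bounds (m := 9) (by norm_num)).1
  have e10 : (9 : ℝ) + 1 = 10 := by norm_num
  rw [e10] at hD0
  obtain ⟨hx0, hxT, hx4, hF⟩ := reduce (T := 2 + 2 * cos (2 * π / 9)) (by linarith) hq hβ0 hβ ha hL
  set T := 2 + 2 * cos (2 * π / 9) with hTdef
  set L := 2 * cos (2 * π / 10) with hLdef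
  have hx := core9 (T := T) (D := 2 + L - T) (by linarith) (by linarith) (by linarith)
    (by linarith) hx0 hxT hx4 (by
      have e : 1 - (2 + L - T + T * (1 - cos β)) / 2 = (T - L - T * (1 - cos β)) / 2 := by ring
      rw [e]
      exact hF)
  have := final_step rfl (by linarith) hq ha (by linarith) hA
  linarith

theorem fin : TargetFin := by
  intro n q β a ε hn hq hβ0 hβ ha hL hA
  have hm : (8 : ℝ) ≤ n := by exact_mod_cast hn
  have hTl := T_lower hm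
  have hD0 := (D0_bounds hm).1
  have hDle := D0_le hm
  have hcn := cos_le_one (2 * π / (n : ℝ))
  have main : 2 - 1.16 * (2 * cos (2 * π / ((n : ℝ) + 1)) - 2 * cos (2 * π / n)) ≤ 2 * cos ε := by
    obtain ⟨hx0, hxT, hx4, hF⟩ := reduce (T := 2 + 2 * cos (2 * π / n)) (by linarith) hq hβ0 hβ ha hL
    set T := 2 + 2 * cos (2 * π / n) with hTdef
    set L := 2 * cos (2 * π / ((n : ℝ) + 1)) with hLdef
    have hx := core (T := T) (D := 2 + L - T) (by linarith) (by linarith) (by linarith)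
      (by linarith) hx0 hxT hx4 (by
        have e : 1 - (2 + L - T + T * (1 - cos β)) / 2 = (T - L - T * (1 - cos β)) / 2 := by ring
        rw [e]
        exact hF)
    have := final_step rfl (by linarith) hq ha (by linarith) hA
    have e2 : 2 * cos (2 * π / (n : ℝ)) = T - 2 := by rw [hTdef]; ring
    rw [e2]
    linarith
  refine ⟨fun _ => ?_, fun hodd => ?_⟩
  · have := trig_even hm
    linarith
  · rcases eq_or_lt_of_le hn with h8 | h8
    · exfalso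
      rw [← h8] at hodd
      exact absurd hodd (by decide)
    rcases eq_or_lt_of_le (Nat.succ_le_of_lt h8) with h9 | h9
    · have e9 : (n : ℝ) = 9 := by
        rw [← h9]; norm_num
      rw [e9] at hq ha ⊢
      have e10 : (9 : ℝ) + 1 = 10 := by norm_num
      rw [e10] at ha ⊢
      exact fin9 q β a ε hq hβ0 hβ ha hL hA
    · have h10 : n ≠ 10 := by
        rintro rfl
        exact absurd hodd (by decide)
      have h11 : 11 ≤ n := by omega
      have hm11 : (11 : ℝ) ≤ n := by exact_mod_cast h11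
      have := trig_odd hm11
      linarith

end Pool.Agent.H72.KP
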