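import Pool.Agent.H72.KP.Fin

/-!
# Final real inequalities for degrees four and five (MP_6cc408_an)
-/

namespace Pool.Agent.H72.KP

open Pool.Agent.H85.KP Real

theorem cos_upper {x : ℝ} (hx0 : 0 ≤ x) (hx : x ≤ 1) :
    cos x ≤ 1 - x ^ 2 / 2 + x ^ 4 * (5 / 96) := by
  have h := cos_bound (x := x) (by rw [abs_of_nonneg hx0]; exact hx)
  rw [abs_of_nonneg hx0] at h
  have := (abs_le.1 h).2
  linarith

theorem cos_two_pi_div_seven : 0.623485 ≤ cos (2 * π / 7) ∧ cos (2 * π / 7) ≤ 0.6235 := by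
  have hpi := pi_pos
  have hlo : 0.5 ≤ cos (2 * π / 7) := by
    have h1 : cos (π / 3) ≤ cos (2 * π / 7) :=
      cos_le_cos_of_nonneg_of_le_pi (by positivity) (by linarith) (by linarith)
    rw [cos_pi_div_three] at h1
    linarith
  have hhi : cos (2 * π / 7) ≤ 0.8 := by
    have h1 : cos (2 * π / 7) ≤ cos (π / 4) :=
      cos_le_cos_of_nonneg_of_le_pi (by positivity) (by linarith) (by linarith)
    rw [cos_pi_div_four] at h1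
    have : √2 ≤ 1.5 := by
      rw [Real.sqrt_le_left (by norm_num)]
      norm_num
    linarith
  have h3 : cos (3 * (2 * π / 7)) = 4 * cos (2 * π / 7) ^ 3 - 3 * cos (2 * π / 7) := cos_three_mul _
  have h2 : cos (2 * (2 * π / 7)) = 2 * cos (2 * π / 7) ^ 2 - 1 := cos_two_mul _
  have h4 : cos (2 * (2 * (2 * π / 7))) = 2 * cos (2 * (2 * π / 7)) ^ 2 - 1 := cos_two_mul _
  have h5 : cos (2 * (2 * (2 * π / 7))) = cos (3 * (2 * π / 7)) := by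
    have : 2 * (2 * (2 * π / 7)) = 2 * π - 3 * (2 * π / 7) := by ring
    rw [this, cos_two_pi_sub]
  rw [h2] at h4
  rw [h5, h3] at h4
  set c := cos (2 * π / 7) with hc
  have h6 : (c - 1) * (8 * c ^ 3 + 4 * c ^ 2 - 4 * c - 1) = 0 := by linarith
  have h7 : 8 * c ^ 3 + 4 * c ^ 2 - 4 * c - 1 = 0 := by
    rcases mul_eq_zero.1 h6 with h | h
    · exfalso; linarith
    · exact h
  constructor
  · by_contra hlt
    push Not at hlt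
    nlinarith [mul_nonneg (sub_nonneg.2 hlo) (sub_nonneg.2 hlt.le), sq_nonneg (c - 0.5)]
  · by_contra hlt
    push Not at hlt
    nlinarith [mul_nonneg (sub_nonneg.2 hhi) (sub_nonneg.2 hlt.le), sq_nonneg (c - 0.6235)]

theorem fin4 : TargetFin4 := by
  intro q β a ε hq hβ0 hβ ha hL hA
  obtain ⟨h7l, h7u⟩ := cos_two_pi_div_seven
  obtain ⟨hx0, hxT, hx4, hF⟩ := reduce (T := 3) (by norm_num) hq hβ0 hβ ha hL
  set L := 2 * cos (2 * π / 7) with hLdef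
  have hx := core4 (D := 2 + L - 3) (by linarith) hx0 hxT hx4 (by
      have e : 1 - (2 + L - 3 + 3 * (1 - cos β)) / 2 = (3 - L - 3 * (1 - cos β)) / 2 := by ring
      rw [e]
      exact hF)
  have h1 := final_step rfl (by linarith) hq ha (by linarith) hA
  have h2 := cos_upper (x := 0.6) (by norm_num) (by norm_num)
  norm_num at h2 h1 ⊢
  linarith

/-- The full form of `(Ar)`. -/
noncomputable def G (b k r3 r5 : ℝ) : ℝ :=
  b ^ 2 + 3 * r3 ^ 2 + 5 * r5 ^ 2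
    + k * (1 + 3 * b ^ 2 + 5 * (b ^ 2 - r3) ^ 2 + 7 * (b ^ 3 - 2 * b * r3 + r5) ^ 2)

theorem F3_le_G {b k r3 r5 : ℝ} (hk : 0 ≤ k) : F3 b k ≤ G b k r3 r5 := by
  have h1 : 0 < 1 + 5 / 3 * k := by positivity
  have h2 : k * (5 * b ^ 4 / (1 + 5 / 3 * k)) ≤ 3 * r3 ^ 2 + k * (5 * (b ^ 2 - r3) ^ 2) := by
    have e : k * (5 * b ^ 4 / (1 + 5 / 3 * k)) = 5 * k * b ^ 4 / (1 + 5 / 3 * k) := by ring
    rw [e, div_le_iff₀ h1]
    nlinarith [sq_nonneg (3 * r3 - 5 * k * (b ^ 2 - r3))]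
  have h3 : 0 ≤ k * (7 * (b ^ 3 - 2 * b * r3 + r5) ^ 2) := by positivity
  have h4 : 0 ≤ 5 * r5 ^ 2 := by positivity
  unfold F3 G
  linarith

theorem G_mono {b b0 k k0 r3 r5 : ℝ} (hb0 : 0 < b0) (hb : b0 ≤ b) (hk0 : 0 ≤ k0) (hk : k0 ≤ k) :
    ∃ s3 s5 : ℝ, G b0 k0 s3 s5 ≤ G b k r3 r5 := by
  have hb' : 0 < b := lt_of_lt_of_le hb0 hb
  have hk' : 0 ≤ k := hk0.trans hk
  obtain ⟨l, hl⟩ : ∃ l, l = b0 / b := ⟨_, rfl⟩
  have hl0 : 0 ≤ l := by rw [hl]; positivity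
  have hl1 : l ≤ 1 := by rw [hl]; exact div_le_one_of_le₀ hb hb'.le
  have hlb : b0 = l * b := by rw [hl]; field_simp
  have p2 : l ^ 2 ≤ 1 := pow_le_one₀ hl0 hl1
  have p4 : l ^ 4 ≤ 1 := pow_le_one₀ hl0 hl1
  have p6 : l ^ 6 ≤ 1 := pow_le_one₀ hl0 hl1
  have key : ∀ {u v : ℝ}, u ≤ 1 → 0 ≤ v → u * v ≤ v := fun hu hv => mul_le_of_le_one_left hv hu
  refine ⟨l ^ 2 * r3, l ^ 3 * r5, ?_⟩
  have e : G b0 k0 (l ^ 2 * r3) (l ^ 3 * r5) = l ^ 2 * b ^ 2 + l ^ 4 * (3 * r3 ^ 2)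
      + l ^ 6 * (5 * r5 ^ 2) + k0 * (1 + l ^ 2 * (3 * b ^ 2) + l ^ 4 * (5 * (b ^ 2 - r3) ^ 2)
        + l ^ 6 * (7 * (b ^ 3 - 2 * b * r3 + r5) ^ 2)) := by
    rw [hlb]; unfold G; ring
  rw [e]
  have q1 : l ^ 2 * b ^ 2 ≤ b ^ 2 := key p2 (by positivity)
  have q2 : l ^ 4 * (3 * r3 ^ 2) ≤ 3 * r3 ^ 2 := key p4 (by positivity)
  have q3 : l ^ 6 * (5 * r5 ^ 2) ≤ 5 * r5 ^ 2 := key p6 (by positivity)
  have q4 : l ^ 2 * (3 * b ^ 2) ≤ 3 * b ^ 2 := key p2 (by positivity)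
  have q5 : l ^ 4 * (5 * (b ^ 2 - r3) ^ 2) ≤ 5 * (b ^ 2 - r3) ^ 2 := key p4 (by positivity)
  have q6 : l ^ 6 * (7 * (b ^ 3 - 2 * b * r3 + r5) ^ 2) ≤ 7 * (b ^ 3 - 2 * b * r3 + r5) ^ 2 :=
    key p6 (by positivity)
  have q7 : k0 * (1 + l ^ 2 * (3 * b ^ 2) + l ^ 4 * (5 * (b ^ 2 - r3) ^ 2)
        + l ^ 6 * (7 * (b ^ 3 - 2 * b * r3 + r5) ^ 2)) ≤
      k * (1 + 3 * b ^ 2 + 5 * (b ^ 2 - r3) ^ 2 + 7 * (b ^ 3 - 2 * b * r3 + r5) ^ 2) := by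
    apply mul_le_mul hk (by linarith) (by positivity) hk'
  unfold G
  linarith

theorem G_lower {b k r3 r5 : ℝ} (hk : 0 ≤ k) :
    b ^ 2 + k * (1 + 3 * b ^ 2 + 5 * b ^ 4 + 7 * b ^ 6)
      - k ^ 2 * ((10 * b ^ 2 + 28 * b ^ 4) ^ 2 / 12 + (14 * b ^ 3) ^ 2 / 20) ≤ G b k r3 r5 := by
  have e : G b k r3 r5 = b ^ 2 + k * (1 + 3 * b ^ 2 + 5 * b ^ 4 + 7 * b ^ 6)
      - k ^ 2 * ((10 * b ^ 2 + 28 * b ^ 4) ^ 2 / 12 + (14 * b ^ 3) ^ 2 / 20)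
      + 3 * (r3 - k * (10 * b ^ 2 + 28 * b ^ 4) / 6) ^ 2 + 5 * (r5 + 14 * k * b ^ 3 / 10) ^ 2
      + k * (5 * r3 ^ 2 + 7 * (r5 - 2 * b * r3) ^ 2) := by
    unfold G; ring
  have h1 : 0 ≤ k * (5 * r3 ^ 2 + 7 * (r5 - 2 * b * r3) ^ 2) := by positivity
  rw [e]
  nlinarith [sq_nonneg (r3 - k * (10 * b ^ 2 + 28 * b ^ 4) / 6), sq_nonneg (r5 + 14 * k * b ^ 3 / 10)]

/-- One piece of the refined localisation. -/
theorem piece {b k B1 B2 κ S C x : ℝ} (h0 : 0 ≤ B1) (h1 : B1 ≤ b) (h2 : b ≤ B2) (hκ : 0 ≤ κ)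
    (hx : 0 ≤ x)
    (hk1 : κ * x ≤ k) (hk2 : k ≤ 0.035) (_hS0 : 2 ≤ S) (hC0 : 0 ≤ C)
    (hS : S ≤ 1 + 3 * B1 ^ 2 + 5 * B1 ^ 4 + 7 * B1 ^ 6)
    (hC : (10 * B2 ^ 2 + 28 * B2 ^ 4) ^ 2 / 12 + (14 * B2 ^ 3) ^ 2 / 20 ≤ C) (hCS : 0.07 * C ≤ S) :
    b ^ 2 + κ * x * (S - C * (κ * x)) ≤
      b ^ 2 + k * (1 + 3 * b ^ 2 + 5 * b ^ 4 + 7 * b ^ 6)
        - k ^ 2 * ((10 * b ^ 2 + 28 * b ^ 4) ^ 2 / 12 + (14 * b ^ 3) ^ 2 / 20) := by
  have hb : 0 ≤ b := h0.trans h1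
  have hkx : 0 ≤ κ * x := by positivity
  have hk : 0 ≤ k := hkx.trans hk1
  have a2 : B1 ^ 2 ≤ b ^ 2 := pow_le_pow_left₀ h0 h1 2
  have a4 : B1 ^ 4 ≤ b ^ 4 := pow_le_pow_left₀ h0 h1 4
  have a6 : B1 ^ 6 ≤ b ^ 6 := pow_le_pow_left₀ h0 h1 6
  have c2 : b ^ 2 ≤ B2 ^ 2 := pow_le_pow_left₀ hb h2 2
  have c3 : b ^ 3 ≤ B2 ^ 3 := pow_le_pow_left₀ hb h2 3
  have c4 : b ^ 4 ≤ B2 ^ 4 := pow_le_pow_left₀ hb h2 4
  have hS' : S ≤ 1 + 3 * b ^ 2 + 5 * b ^ 4 + 7 * b ^ 6 := by linarith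
  have hC' : (10 * b ^ 2 + 28 * b ^ 4) ^ 2 / 12 + (14 * b ^ 3) ^ 2 / 20 ≤ C := by
    have d1 : (10 * b ^ 2 + 28 * b ^ 4) ^ 2 ≤ (10 * B2 ^ 2 + 28 * B2 ^ 4) ^ 2 :=
      pow_le_pow_left₀ (by positivity) (by linarith) 2
    have d2 : (14 * b ^ 3) ^ 2 ≤ (14 * B2 ^ 3) ^ 2 :=
      pow_le_pow_left₀ (by positivity) (by linarith) 2
    linarith
  have e1 : k * S ≤ k * (1 + 3 * b ^ 2 + 5 * b ^ 4 + 7 * b ^ 6) := mul_le_mul_of_nonneg_left hS' hk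
  have e2 : k ^ 2 * ((10 * b ^ 2 + 28 * b ^ 4) ^ 2 / 12 + (14 * b ^ 3) ^ 2 / 20) ≤ k ^ 2 * C :=
    mul_le_mul_of_nonneg_left hC' (by positivity)
  have e3 : 0 ≤ (k - κ * x) * (S - C * (k + κ * x)) := by
    apply mul_nonneg (by linarith)
    have : C * (k + κ * x) ≤ C * 0.07 := mul_le_mul_of_nonneg_left (by linarith) hC0
    linarith
  nlinarith

theorem core5' {x r3 r5 : ℝ} (hx0 : 0 ≤ x) (hx2 : x ≤ 0.02)
    (h : G (0.91941 - x / 2) (x * (2 * 3.24697 - x) / 4) r3 r5 ≤ 1) : x ≤ 0.01038 := by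
  have hk0 : 0 ≤ x * (2 * 3.24697 - x) / 4 := by
    have : 0 ≤ 2 * 3.24697 - x := by linarith
    positivity
  have hl := (G_lower (b := 0.91941 - x / 2) (r3 := r3) (r5 := r5) hk0).trans h
  by_contra hlt
  push Not at hlt
  rcases le_or_gt x 0.0125 with h1 | h1
  · have := piece (b := 0.91941 - x / 2) (k := x * (2 * 3.24697 - x) / 4) (B1 := 0.91316)
      (B2 := 0.91422) (κ := 1.62036) (S := 11.036) (C := 70.69) (x := x) (by norm_num)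
      (by linarith) (by linarith) (by norm_num) hx0 (by nlinarith) (by nlinarith) (by norm_num)
      (by norm_num) (by norm_num) (by norm_num) (by norm_num)
    nlinarith
  · have := piece (b := 0.91941 - x / 2) (k := x * (2 * 3.24697 - x) / 4) (B1 := 0.90941)
      (B2 := 0.91422) (κ := 1.618) (S := 10.85) (C := 70.69) (x := x) (by norm_num)
      (by linarith) (by linarith) (by norm_num) hx0 (by nlinarith) (by nlinarith) (by norm_num)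
      (by norm_num) (by norm_num) (by norm_num) (by norm_num)
    nlinarith

theorem fin5 : TargetFin5 := by
  intro q β a ε hq hβ0 hβ ha hG hA
  obtain ⟨r3, r5, hG⟩ := hG
  obtain ⟨h7l, h7u⟩ := cos_two_pi_div_seven
  have hT : (3.24697 : ℝ) ≤ q := by linarith
  have hc0 : 0 ≤ cos β := cos_nonneg_of_neg_pi_div_two_le_of_le (by linarith [pi_pos]) hβ
  have hs0 : 0 ≤ sin β := sin_nonneg_of_nonneg_of_le_pi hβ0 (by linarith [pi_pos])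
  have hsq : sin β ^ 2 + cos β ^ 2 = 1 := sin_sq_add_cos_sq β
  have hG' : G ((q * cos β - a) / 2) ((q * sin β) ^ 2 / 4) r3 r5 ≤ 1 := hG
  have hL : Lev3 q β a := (F3_le_G (by positivity)).trans hG'
  obtain ⟨hx0, hxT, hx4, hF⟩ := reduce (T := 3.24697) (by norm_num) hT hβ0 hβ ha hL
  obtain ⟨x, hx⟩ : ∃ x, x = 3.24697 * (1 - cos β) := ⟨_, rfl⟩
  rw [← hx] at hx0 hxT hx4 hF
  have hx2 := core5 (T := 3.24697) (D := 0.16118) (x := x) rfl le_rfl hx0 hxT hx4 (by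
      have e : 1 - (0.16118 + x) / 2 = (3.24697 - 1.40815 - x) / 2 := by ring
      rw [e]
      exact hF)
  have hx3 : x ≤ 0.01038 := by
    obtain ⟨s3, s5, hs⟩ := G_mono (b := (q * cos β - a) / 2) (b0 := 0.91941 - x / 2)
      (k := (q * sin β) ^ 2 / 4) (k0 := x * (2 * 3.24697 - x) / 4) (r3 := r3) (r5 := r5)
      (by linarith)
      (by
        have : 3.24697 * cos β ≤ q * cos β := mul_le_mul_of_nonneg_right hT hc0
        rw [hx]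
        linarith)
      (by
        have : 0 ≤ 2 * 3.24697 - x := by linarith
        positivity)
      (by
        have h1 : (3.24697 * sin β) ^ 2 ≤ (q * sin β) ^ 2 :=
          pow_le_pow_left₀ (by positivity) (mul_le_mul_of_nonneg_right hT hs0) 2
        have h2 : x * (2 * 3.24697 - x) = (3.24697 * sin β) ^ 2 := by
          have : sin β ^ 2 = 1 - cos β ^ 2 := by linarith
          rw [mul_pow, this, hx]; ring
        rw [h2]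
        linarith)
    exact core5' hx0 hx2 (hs.trans hG')
  constructor
  · by_contra hlt
    push Not at hlt
    have h1 : cos β < cos 0.08 :=
      cos_lt_cos_of_nonneg_of_le_pi_div_two (by norm_num) hβ hlt
    have h2 := cos_upper (x := 0.08) (by norm_num) (by norm_num)
    norm_num at h2 h1
    linarith
  · have h1 := final_step (x := x) hx (by norm_num) hT ha (by linarith) hA
    have h2 := cos_upper (x := 0.43) (by norm_num) (by norm_num)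
    norm_num at h2 h1 ⊢
    linarith

end Pool.Agent.H72.KP
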